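import Pool.Agent.helper15.XE.SpecC

/-! # Project XE, row COM (port of row COM of project EC) -/

set_option autoImplicit false

namespace Pool.Agent.XE

open Finset ArithmeticFunction
open Pool.Agent.EC (tri TL wt mt Adm edg mnf tI tII tyI cvl KK yN UN TUP TLe GdT)
open Pool.Agent.CH (rgh Mo ClP ClB)
open GD (kp ks)

theorem COM_rough {N a q : ℕ} (hc : Nat.Coprime a 30)
    (h : ¬ ∃ q : ℕ, q.Prime ∧ q ∣ a ∧ 7 ≤ q ∧ (q : ℝ) < (N : ℝ) ^ az) (hq : q.Prime) (hqa : q ∣ a) :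
    (N : ℝ) ^ az ≤ (q : ℝ) := by
  by_contra hcon
  push Not at hcon
  apply h
  refine ⟨q, hq, hqa, ?_, hcon⟩
  have hc' : Nat.Coprime q 30 := Nat.Coprime.coprime_dvd_left hqa hc
  have h2 := hq.two_le
  by_contra h7
  push Not at h7
  interval_cases q
  · exact absurd hc' (by decide)
  · exact absurd hc' (by decide)
  · exact absurd hq (by decide)
  · exact absurd hc' (by decide)
  · exact absurd hq (by decide)

theorem COM (h1 : CM0_stmt) (h2 : CM1_stmt) (h3 : TSB_stmt) : COM_stmt := by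
  classical
  have hCM0 := h1
  have hCM1 := h2
  have hTSB := h3
  clear h1 h2 h3
  obtain ⟨N0, h0⟩ := hCM0
  obtain ⟨N1, h1⟩ := hCM1
  obtain ⟨C, -, hTS⟩ := hTSB
  refine ⟨max (max N0 N1) 4096, fun N hN a ha1 ha2 hc hsq hpos => ?_⟩
  have hN0 : N0 ≤ N := le_trans (le_trans (le_max_left _ _) (le_max_left _ _)) hN
  have hN1 : N1 ≤ N := le_trans (le_trans (le_max_right _ _) (le_max_left _ _)) hN
  have hN12 : 4096 ≤ N := le_trans (le_max_right _ _) hN
  have hN2 : 2 ≤ N := le_trans (by norm_num) hN12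
  have hTS0 : 0 ≤ TS N a := (hTS N hN2 a).1
  have ha0 : a ≠ 0 := by omega
  have hpsi : 0 < psi0 N a := by linarith
  have hno : ¬ ∃ q : ℕ, q.Prime ∧ q ∣ a ∧ 7 ≤ q ∧ (q : ℝ) < (N : ℝ) ^ az := by
    intro hex
    unfold psi0 at hpsi
    rw [if_pos hex] at hpsi
    exact lt_irrefl _ hpsi
  have hps : psi0 N a = 1 - 1 / 2 *
      (#(a.primeFactors.filter fun q : ℕ => (N : ℝ) ^ az ≤ (q : ℝ) ∧ (q : ℝ) < (N : ℝ) ^ ay) : ℝ) := by
    unfold psi0
    rw [if_neg hno]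
  have hge : ∀ q ∈ a.primeFactors, (N : ℝ) ^ az ≤ (q : ℝ) := fun q hq =>
    COM_rough hc hno (Nat.prime_of_mem_primeFactors hq) (Nat.dvd_of_mem_primeFactors hq)
  have hsqf : Squarefree a := by
    rw [Nat.squarefree_iff_prime_squarefree]
    intro q hq hqq
    have hqa : q ∣ a := dvd_trans (dvd_mul_right q q) hqq
    exact hsq q hq (COM_rough hc hno hq hqa) (by rw [pow_two]; exact hqq)
  have hcard : cardFactors a = #a.primeFactors := by
    rw [← (cardDistinctFactors_eq_cardFactors_iff_squarefree ha0).2 hsqf]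
    rfl
  refine ⟨?_, ?_⟩
  · rw [hcard]
    by_contra h5
    push Not at h5
    have h5' : 4 ≤ #a.primeFactors := h5
    rw [hps] at hpos
    rcases Nat.lt_or_ge (#(a.primeFactors.filter fun q : ℕ => (N : ℝ) ^ az ≤ (q : ℝ) ∧ (q : ℝ) < (N : ℝ) ^ ay)) 1 with
      hk | hk
    · have hk0 : #(a.primeFactors.filter fun q : ℕ => (N : ℝ) ^ az ≤ (q : ℝ) ∧ (q : ℝ) < (N : ℝ) ^ ay) = 0 := by omega
      have hall : ∀ q ∈ a.primeFactors, (N : ℝ) ^ ay ≤ (q : ℝ) := by
        intro q hq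
        by_contra hcon
        push Not at hcon
        have hm : q ∈ a.primeFactors.filter fun q : ℕ => (N : ℝ) ^ az ≤ (q : ℝ) ∧ (q : ℝ) < (N : ℝ) ^ ay :=
          mem_filter.2 ⟨hq, hge q hq, hcon⟩
        rw [card_eq_zero.1 hk0] at hm
        simp at hm
      have := h0 N hN0 a ha1 ha2 hsqf hall h5'
      rw [hk0] at hpos
      push_cast at hpos
      linarith
    · have hk2 : #(a.primeFactors.filter fun q : ℕ => (N : ℝ) ^ az ≤ (q : ℝ) ∧ (q : ℝ) < (N : ℝ) ^ ay) < 2 := by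
        by_contra hcon
        push Not at hcon
        have : (2 : ℝ) ≤ (#(a.primeFactors.filter fun q : ℕ => (N : ℝ) ^ az ≤ (q : ℝ) ∧ (q : ℝ) < (N : ℝ) ^ ay) : ℝ) := by
          exact_mod_cast hcon
        linarith
      have hk1 : #(a.primeFactors.filter fun q : ℕ => (N : ℝ) ^ az ≤ (q : ℝ) ∧ (q : ℝ) < (N : ℝ) ^ ay) = 1 := by omega
      obtain ⟨q₀, hq₀⟩ := card_eq_one.1 hk1
      have hm : q₀ ∈ a.primeFactors.filter fun q : ℕ => (N : ℝ) ^ az ≤ (q : ℝ) ∧ (q : ℝ) < (N : ℝ) ^ ay := by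
        rw [hq₀]; exact mem_singleton_self _
      rw [mem_filter] at hm
      have hall : ∀ q ∈ a.primeFactors, q ≠ q₀ → (N : ℝ) ^ ay ≤ (q : ℝ) := by
        intro q hq hne
        by_contra hcon
        push Not at hcon
        have hm' : q ∈ a.primeFactors.filter fun q : ℕ => (N : ℝ) ^ az ≤ (q : ℝ) ∧ (q : ℝ) < (N : ℝ) ^ ay :=
          mem_filter.2 ⟨hq, hge q hq, hcon⟩
        rw [hq₀, mem_singleton] at hm'
        exact hne hm'
      have := h1 N hN1 a q₀ ha1 ha2 hsqf hm.1 hm.2.1 hm.2.2 hall h5'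
      rw [hk1] at hpos
      push_cast at hpos
      linarith
  · intro q hq
    have hq1 := hge q hq
    have hNR : (1 : ℝ) < N := by exact_mod_cast (by omega : 1 < N)
    have hN0' : (0 : ℝ) < N := by linarith
    have e1 : ((N : ℝ) ^ az) ^ 7 ≤ (q : ℝ) ^ 7 := pow_le_pow_left₀ (by positivity) hq1 7
    have e2 : ((N : ℝ) ^ az) ^ 7 = (N : ℝ) ^ (az * 7) := by
      rw [Real.rpow_mul (by positivity)]
      norm_num
    have e3 : 2 * (N : ℝ) < (N : ℝ) ^ (az * 7) := by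
      have g1 : (N : ℝ) ^ (az * 7) = (N : ℝ) * (N : ℝ) ^ (az * 7 - 1) := by
        have : (N : ℝ) ^ (az * 7) = (N : ℝ) ^ (1 + (az * 7 - 1)) := by
          congr 1
          ring
        rw [this, Real.rpow_add hN0', Real.rpow_one]
      have g2 : (2 : ℝ) < (N : ℝ) ^ (az * 7 - 1) := by
        have hN4 : ((2 : ℝ) ^ (12 : ℝ)) ≤ (N : ℝ) := by
          have : ((2 : ℝ) ^ (12 : ℝ)) = 4096 := by norm_num
          rw [this]
          exact_mod_cast hN12
        have haz : 0 ≤ az * 7 - 1 := by unfold az; norm_num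
        calc (2 : ℝ) = (2 : ℝ) ^ (1 : ℝ) := (Real.rpow_one _).symm
          _ < (2 : ℝ) ^ ((12 : ℝ) * (az * 7 - 1)) := Real.rpow_lt_rpow_of_exponent_lt (by norm_num) (by unfold az; norm_num)
          _ = ((2 : ℝ) ^ (12 : ℝ)) ^ (az * 7 - 1) := Real.rpow_mul (by norm_num) _ _
          _ ≤ (N : ℝ) ^ (az * 7 - 1) := Real.rpow_le_rpow (by positivity) hN4 haz
      rw [g1, mul_comm 2]
      exact mul_lt_mul_of_pos_left g2 hN0'
    have e4 : 2 * (N : ℝ) < (q : ℝ) ^ 7 := by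
      rw [e2] at e1
      linarith
    exact_mod_cast e4

end Pool.Agent.XE
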