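import Pool.Agent.helper15.XE.SpecC
import Pool.Agent.helper68.EC.PPW

/-!
# xe:PPW: the prime powers in the products, for a general window
-/

set_option autoImplicit false

namespace Pool.Agent.XE

open Finset ArithmeticFunction
open Pool.Agent.EC (tri TL wt mt Adm edg mnf tI tII tyI cvl KK yN UN TUP TLe GdT)
open Pool.Agent.CH (rgh Mo ClP ClB)
open GD (kp ks)

open Classical in
theorem PPW_cnt (h2 : MLW_stmt) (N : ℕ) (v Y : ℝ) (hN : 12 ≤ N) (hv : InB N v) (hw : ∀ j : ℕ, wv N v j ≠ 0 → N ^ 3 < j ∧ j + 6 ≤ 3 * N ^ 3) (hY : 1 ≤ Y) :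
    ((#((Z3 N).filter fun m => wv N v m ≠ 0 ∧ ∃ s : ℕ, s ^ 2 ∣ m ∧ Y ≤ s) : ℕ) : ℝ) ≤
      14 * (N : ℝ) ^ 2 / Y + 3 * (N : ℝ) ^ (3 / 2 : ℝ) := by
  have hNr : (12 : ℝ) ≤ N := by exact_mod_cast hN
  obtain ⟨k, hk⟩ : ∃ k : ℕ, k = ⌈Y⌉₊ - 1 := ⟨_, rfl⟩
  have hceil : 1 ≤ ⌈Y⌉₊ := Nat.one_le_ceil_iff.2 (by linarith)
  have hk1 : Y ≤ (k : ℝ) + 1 := by
    have h1 : k + 1 = ⌈Y⌉₊ := by omega
    have h2 := Nat.le_ceil Y
    rw [← h1] at h2
    push_cast at h2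
    exact h2
  have hsub : ((Z3 N).filter fun m => wv N v m ≠ 0 ∧ ∃ s : ℕ, s ^ 2 ∣ m ∧ Y ≤ s) ⊆
      (Ioo k (Nat.sqrt (8 * N ^ 3) + 1)).biUnion fun s => (Z3 N).filter fun m => wv N v m ≠ 0 ∧ s ^ 2 ∣ m := by
    intro m hm
    rw [Finset.mem_filter] at hm
    obtain ⟨hmW, hm0, s, hs, hYs⟩ := hm
    rw [Finset.mem_biUnion]
    refine ⟨s, ?_, Finset.mem_filter.2 ⟨hmW, hm0, hs⟩⟩
    rw [Finset.mem_Ioo]
    obtain ⟨h1, h2⟩ := hw m hm0
    constructor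
    · have h3 : ⌈Y⌉₊ ≤ s := Nat.ceil_le.2 hYs
      omega
    · have h3 : s ^ 2 ≤ 8 * N ^ 3 := (Nat.le_of_dvd (by omega) hs).trans (by omega)
      have h4 : s ≤ Nat.sqrt (8 * N ^ 3) := Nat.le_sqrt'.2 h3
      omega
  have h1 : (#((Z3 N).filter fun m => wv N v m ≠ 0 ∧ ∃ s : ℕ, s ^ 2 ∣ m ∧ Y ≤ s) : ℕ) ≤
      ∑ s ∈ Ioo k (Nat.sqrt (8 * N ^ 3) + 1), #((Z3 N).filter fun m => wv N v m ≠ 0 ∧ s ^ 2 ∣ m) :=
    (Finset.card_le_card hsub).trans Finset.card_biUnion_le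
  have h2' : (∑ s ∈ Ioo k (Nat.sqrt (8 * N ^ 3) + 1), (#((Z3 N).filter fun m => wv N v m ≠ 0 ∧ s ^ 2 ∣ m) : ℝ)) ≤
      ∑ s ∈ Ioo k (Nat.sqrt (8 * N ^ 3) + 1), (7 * (N : ℝ) ^ 2 * ((s : ℝ) ^ 2)⁻¹ + 1) := by
    refine Finset.sum_le_sum fun s hs => ?_
    rw [Finset.mem_Ioo] at hs
    have hs0 : 0 < s ^ 2 := by
      have : 0 < s := by omega
      positivity
    have h3 := h2 N hN v hv (s ^ 2) hs0
    refine h3.trans ?_
    have hs1 : (0 : ℝ) < ((s ^ 2 : ℕ) : ℝ) := by exact_mod_cast hs0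
    have h4 : 6 * (N : ℝ) ^ 2 / ((s ^ 2 : ℕ) : ℝ) ≤ 7 * (N : ℝ) ^ 2 / ((s ^ 2 : ℕ) : ℝ) := by
      refine div_le_div_of_nonneg_right ?_ hs1.le
      have : (0 : ℝ) ≤ (N : ℝ) ^ 2 := by positivity
      linarith
    push_cast at h4 ⊢
    rw [div_eq_mul_inv (7 * (N : ℝ) ^ 2)] at h4
    linarith
  have h3 : ∑ s ∈ Ioo k (Nat.sqrt (8 * N ^ 3) + 1), (7 * (N : ℝ) ^ 2 * ((s : ℝ) ^ 2)⁻¹ + 1) ≤
      7 * (N : ℝ) ^ 2 * (2 / ((k : ℝ) + 1)) + Nat.sqrt (8 * N ^ 3) := by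
    rw [Finset.sum_add_distrib, ← Finset.mul_sum]
    have h4 := sum_Ioo_inv_sq_le (α := ℝ) k (Nat.sqrt (8 * N ^ 3) + 1)
    have h5 : ∑ _s ∈ Ioo k (Nat.sqrt (8 * N ^ 3) + 1), (1 : ℝ) ≤ Nat.sqrt (8 * N ^ 3) := by
      rw [Finset.sum_const, nsmul_eq_mul, mul_one, Nat.card_Ioo]
      exact_mod_cast (by omega : Nat.sqrt (8 * N ^ 3) + 1 - k - 1 ≤ Nat.sqrt (8 * N ^ 3))
    exact add_le_add (mul_le_mul_of_nonneg_left h4 (by positivity)) h5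
  have h4 : 7 * (N : ℝ) ^ 2 * (2 / ((k : ℝ) + 1)) ≤ 14 * (N : ℝ) ^ 2 / Y := by
    have e : 7 * (N : ℝ) ^ 2 * (2 / ((k : ℝ) + 1)) = 14 * (N : ℝ) ^ 2 / ((k : ℝ) + 1) := by ring
    rw [e]
    exact div_le_div_of_nonneg_left (by positivity) (by linarith) hk1
  have h5 : (Nat.sqrt (8 * N ^ 3) : ℝ) ≤ 3 * (N : ℝ) ^ (3 / 2 : ℝ) := by
    have h6 : ((Nat.sqrt (8 * N ^ 3) : ℕ) : ℝ) ^ 2 ≤ 8 * (N : ℝ) ^ 3 := by
      exact_mod_cast Nat.sqrt_le' (8 * N ^ 3)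
    have h7 : (3 * (N : ℝ) ^ (3 / 2 : ℝ)) ^ 2 = 9 * (N : ℝ) ^ 3 := by
      rw [mul_pow, ← Real.rpow_natCast ((N : ℝ) ^ (3 / 2 : ℝ)) 2, ← Real.rpow_mul (by positivity)]
      norm_num
    have h8 : ((Nat.sqrt (8 * N ^ 3) : ℕ) : ℝ) ^ 2 ≤ (3 * (N : ℝ) ^ (3 / 2 : ℝ)) ^ 2 := by
      rw [h7]
      have : 0 ≤ (N : ℝ) ^ 3 := by positivity
      linarith
    exact (pow_le_pow_iff_left₀ (by positivity) (by positivity) (by norm_num)).1 h8
  have h9 : ((#((Z3 N).filter fun m => wv N v m ≠ 0 ∧ ∃ s : ℕ, s ^ 2 ∣ m ∧ Y ≤ s) : ℕ) : ℝ) ≤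
      ∑ s ∈ Ioo k (Nat.sqrt (8 * N ^ 3) + 1), (#((Z3 N).filter fun m => wv N v m ≠ 0 ∧ s ^ 2 ∣ m) : ℝ) := by
    exact_mod_cast h1
  linarith

open Classical in
theorem PPW_zero {r : ℕ} (a b : Fin r → ℝ) (N m : ℕ) (hN : 8 ≤ N) (hm1 : N ^ 3 < m)
    (h : ∑ p ∈ (TUP N a b m).filter (fun p => ¬ (m / ∏ i, p i).Prime), vonMangoldt (m / ∏ i, p i) ≠ 0) :
    ∃ s : ℕ, s ^ 2 ∣ m ∧ (N : ℝ) ^ ((3 - ∑ i, b i) / 3) ≤ s := by
  obtain ⟨p, hp, hpne⟩ := Finset.exists_ne_zero_of_sum_ne_zero h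
  rw [Finset.mem_filter] at hp
  obtain ⟨hpT, hpp⟩ := hp
  unfold TUP at hpT
  rw [Finset.mem_filter] at hpT
  obtain ⟨_, hpb, hpd⟩ := hpT
  obtain ⟨s, hs1, hs2⟩ := Pool.Agent.EC.PPW_sq _ hpne hpp
  refine ⟨s, hs1.trans (Nat.div_dvd_of_dvd hpd), ?_⟩
  have hNr : (0 : ℝ) < N := by exact_mod_cast (show 0 < N by omega)
  have hm0 : 0 < m := by omega
  have hP0 : 0 < ∏ i, p i := Nat.pos_of_dvd_of_pos hpd hm0
  have hPb : ((∏ i, p i : ℕ) : ℝ) ≤ (N : ℝ) ^ (∑ i, b i) := by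
    rw [Real.rpow_sum_of_pos hNr]
    push_cast
    exact Finset.prod_le_prod (fun i _ => by positivity) fun i _ => (hpb i).2.le
  have hn : ((m / ∏ i, p i : ℕ) : ℝ) = (m : ℝ) / ((∏ i, p i : ℕ) : ℝ) :=
    Nat.cast_div hpd (by exact_mod_cast hP0.ne')
  have h1 : (N : ℝ) ^ (3 - ∑ i, b i) ≤ ((m / ∏ i, p i : ℕ) : ℝ) := by
    rw [hn, Real.rpow_sub hNr]
    refine div_le_div₀ (by positivity) ?_ (by exact_mod_cast hP0) hPb
    rw [show (3 : ℝ) = ((3 : ℕ) : ℝ) by norm_num, Real.rpow_natCast]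
    exact_mod_cast hm1.le
  have h2 : (N : ℝ) ^ (3 - ∑ i, b i) ≤ (s : ℝ) ^ 3 := h1.trans (by exact_mod_cast hs2)
  have h3 : ((N : ℝ) ^ ((3 - ∑ i, b i) / 3)) ^ 3 = (N : ℝ) ^ (3 - ∑ i, b i) := by
    rw [← Real.rpow_natCast ((N : ℝ) ^ ((3 - ∑ i, b i) / 3)) 3, ← Real.rpow_mul hNr.le]
    congr 1
    push_cast
    ring
  rw [← h3] at h2
  exact (pow_le_pow_iff_left₀ (by positivity) (by positivity) (by norm_num)).1 h2
theorem PPW (h1 : WVB_stmt) (h2 : MLW_stmt) : PPW_stmt := by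
  classical
  intro r a b hAd
  obtain ⟨N₁, hN₁, hW1⟩ := h1
  obtain ⟨_, _, hb, _⟩ := hAd
  obtain ⟨c₀, hc₀⟩ : ∃ c₀ : ℝ, c₀ = min ((3 - ∑ i, b i) / 3) (1 / 2) := ⟨_, rfl⟩
  have hc₀p : 0 < c₀ := by
    rw [hc₀]
    exact lt_min (by linarith) (by norm_num)
  have hc₀1 : c₀ ≤ (3 - ∑ i, b i) / 3 := by
    rw [hc₀]
    exact min_le_left _ _
  have hc₀2 : c₀ ≤ 1 / 2 := by
    rw [hc₀]
    exact min_le_right _ _
  obtain ⟨e, he⟩ : ∃ e : ℝ, e = c₀ / (16 * (r + 1)) := ⟨_, rfl⟩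
  have hr1 : (0 : ℝ) < 16 * (r + 1) := by positivity
  have hep : 0 < e := by
    rw [he]
    positivity
  obtain ⟨C, hC, hdiv⟩ := Pool.Agent.helper9.Tors.divisor_bound e hep
  obtain ⟨N₀, hN₀⟩ := Pool.Agent.EC.PPW_large (c₀ / 4) (68 * C ^ (r + 1)) (by positivity) (by positivity)
  refine ⟨c₀ / 2, by positivity, max N₀ N₁, fun N hN v hv => ?_⟩
  obtain ⟨hN8, hlog⟩ := hN₀ N ((le_max_left _ _).trans hN)
  have hN12 : 12 ≤ N := hN₁.trans ((le_max_right _ _).trans hN)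
  obtain ⟨hWv, _⟩ := hW1 N ((le_max_right _ _).trans hN)
  obtain ⟨_, _, _, hwv⟩ := hWv v hv
  have hNr : (8 : ℝ) ≤ N := by exact_mod_cast hN8
  have hNp : (0 : ℝ) < N := by linarith
  have hN1 : (1 : ℝ) ≤ N := by linarith
  have hL0 : 0 ≤ Real.log N := Real.log_nonneg hN1
  obtain ⟨Y, hY⟩ : ∃ Y : ℝ, Y = (N : ℝ) ^ ((3 - ∑ i, b i) / 3) := ⟨_, rfl⟩
  have hY1 : 1 ≤ Y := by
    rw [hY]
    exact Real.one_le_rpow hN1 (by linarith)
  -- the divisor bound up to `8 N^3`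
  have hdv : ∀ n : ℕ, n ≠ 0 → n ≤ 8 * N ^ 3 → ((n.divisors.card : ℕ) : ℝ) ≤ C * (N : ℝ) ^ (4 * e) := by
    intro n hn0 hn
    have h1 := hdiv n hn0
    have h2 : (n : ℝ) ≤ (N : ℝ) ^ (4 : ℝ) := by
      have h3 : (n : ℝ) ≤ 8 * (N : ℝ) ^ 3 := by exact_mod_cast hn
      have h4 : 8 * (N : ℝ) ^ 3 ≤ (N : ℝ) ^ 4 := by
        have : 0 ≤ (N : ℝ) ^ 3 := by positivity
        nlinarith
      rw [show (4 : ℝ) = ((4 : ℕ) : ℝ) by norm_num, Real.rpow_natCast]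
      linarith
    have h5 : (n : ℝ) ^ e ≤ (N : ℝ) ^ (4 * e) := by
      rw [Real.rpow_mul hNp.le]
      exact Real.rpow_le_rpow (Nat.cast_nonneg n) h2 hep.le
    exact h1.trans (mul_le_mul_of_nonneg_left h5 hC.le)
  obtain ⟨W, hW⟩ : ∃ W : ℝ, W = (C * (N : ℝ) ^ (4 * e)) ^ r * (4 * Real.log N) * (C * (N : ℝ) ^ (4 * e)) := ⟨_, rfl⟩
  have hW0 : 0 ≤ W := by
    rw [hW]
    positivity
  have hinner : ∀ m : ℕ, N ^ 3 < m → m ≤ 8 * N ^ 3 →
      (∑ p ∈ (TUP N a b m).filter (fun p => ¬ (m / ∏ i, p i).Prime), vonMangoldt (m / ∏ i, p i)) *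
        (#(m - 6).divisors : ℝ) ≤ W := by
    intro m hm1 hm2
    have hN3 : 512 ≤ N ^ 3 := by
      calc 512 = 8 ^ 3 := by norm_num
        _ ≤ N ^ 3 := Nat.pow_le_pow_left hN8 3
    have hd1 := hdv m (by omega) hm2
    have hd2 := hdv (m - 6) (by omega) (by omega)
    have hlogm : Real.log m ≤ 4 * Real.log N := by
      have h4 : (m : ℝ) ≤ 8 * (N : ℝ) ^ 3 := by exact_mod_cast hm2
      have h5 := Real.log_le_log (by exact_mod_cast (show 0 < m by omega)) h4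
      rw [Real.log_mul (by norm_num) (by positivity), Real.log_pow] at h5
      have h6 : Real.log 8 ≤ Real.log N := Real.log_le_log (by norm_num) hNr
      push_cast at h5
      linarith
    have h1 : ∑ p ∈ (TUP N a b m).filter (fun p => ¬ (m / ∏ i, p i).Prime), vonMangoldt (m / ∏ i, p i) ≤
        (C * (N : ℝ) ^ (4 * e)) ^ r * (4 * Real.log N) := by
      calc ∑ p ∈ (TUP N a b m).filter (fun p => ¬ (m / ∏ i, p i).Prime), vonMangoldt (m / ∏ i, p i)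
          ≤ ∑ p ∈ (TUP N a b m).filter (fun p => ¬ (m / ∏ i, p i).Prime), 4 * Real.log N := by
            refine Finset.sum_le_sum fun p _ => ?_
            refine vonMangoldt_le_log.trans (le_trans ?_ hlogm)
            exact Pool.Agent.helper85.BVP.log_nat_le (Nat.div_le_self _ _)
        _ = (#((TUP N a b m).filter (fun p => ¬ (m / ∏ i, p i).Prime)) : ℝ) * (4 * Real.log N) := by
            rw [Finset.sum_const, nsmul_eq_mul]
        _ ≤ (C * (N : ℝ) ^ (4 * e)) ^ r * (4 * Real.log N) := by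
            refine mul_le_mul_of_nonneg_right ?_ (by positivity)
            have h2 : #((TUP N a b m).filter (fun p => ¬ (m / ∏ i, p i).Prime)) ≤ #m.divisors ^ r := by
              calc _ ≤ #(TUP N a b m) := Finset.card_filter_le _ _
                _ ≤ #(Fintype.piFinset fun _ : Fin r => m.primeFactors) := by
                    unfold TUP
                    exact Finset.card_filter_le _ _
                _ = #m.primeFactors ^ r := by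
                    rw [Fintype.card_piFinset]
                    simp
                _ ≤ #m.divisors ^ r := by
                    refine Nat.pow_le_pow_left (Finset.card_le_card ?_) r
                    intro q hq
                    exact Nat.mem_divisors.2 ⟨Nat.dvd_of_mem_primeFactors hq, by omega⟩
            calc (#((TUP N a b m).filter (fun p => ¬ (m / ∏ i, p i).Prime)) : ℝ) ≤ (#m.divisors : ℝ) ^ r := by
                  exact_mod_cast h2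
              _ ≤ _ := pow_le_pow_left₀ (Nat.cast_nonneg _) hd1 r
    rw [hW]
    exact mul_le_mul h1 hd2 (Nat.cast_nonneg _) (by positivity)
  calc ∑ m ∈ Z3 N, (∑ p ∈ (TUP N a b m).filter (fun p => ¬ (m / ∏ i, p i).Prime), vonMangoldt (m / ∏ i, p i)) * wv N v m *
        (#(m - 6).divisors : ℝ)
      ≤ ∑ m ∈ Z3 N, if wv N v m ≠ 0 ∧ ∃ s : ℕ, s ^ 2 ∣ m ∧ Y ≤ s then W else 0 := by
        refine Finset.sum_le_sum fun m hm => ?_
        obtain ⟨w1, w2, w3, _⟩ := hwv m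
        by_cases hw : wv N v m = 0
        · rw [hw, if_neg (by simp), mul_zero, zero_mul]
        obtain ⟨w4, w5⟩ := w3 hw
        by_cases h : ∃ s : ℕ, s ^ 2 ∣ m ∧ Y ≤ s
        · rw [if_pos ⟨hw, h⟩]
          refine le_trans ?_ (hinner m w4 (by omega))
          have h5 : 0 ≤ ∑ p ∈ (TUP N a b m).filter (fun p => ¬ (m / ∏ i, p i).Prime), vonMangoldt (m / ∏ i, p i) :=
            Finset.sum_nonneg fun p _ => vonMangoldt_nonneg
          refine mul_le_mul_of_nonneg_right ?_ (Nat.cast_nonneg _)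
          exact mul_le_of_le_one_right h5 w2
        · rw [if_neg (fun h' => h h'.2)]
          have h0 : ∑ p ∈ (TUP N a b m).filter (fun p => ¬ (m / ∏ i, p i).Prime),
              vonMangoldt (m / ∏ i, p i) = 0 := by
            by_contra hne
            apply h
            rw [hY]
            exact PPW_zero a b N m hN8 w4 hne
          rw [h0, zero_mul, zero_mul]
    _ = ((#((Z3 N).filter fun m => wv N v m ≠ 0 ∧ ∃ s : ℕ, s ^ 2 ∣ m ∧ Y ≤ s) : ℕ) : ℝ) * W := by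
        rw [← Finset.sum_filter, Finset.sum_const, nsmul_eq_mul]
    _ ≤ (14 * (N : ℝ) ^ 2 / Y + 3 * (N : ℝ) ^ (3 / 2 : ℝ)) * W :=
        mul_le_mul_of_nonneg_right (PPW_cnt h2 N v Y hN12 hv (fun j hj => (hwv j).2.2.1 hj) hY1) hW0
    _ ≤ (17 * (N : ℝ) ^ (2 - c₀)) * W := by
        refine mul_le_mul_of_nonneg_right ?_ hW0
        have h1 : (N : ℝ) ^ 2 / Y ≤ (N : ℝ) ^ (2 - c₀) := by
          rw [hY, ← Real.rpow_natCast (N : ℝ) 2, ← Real.rpow_sub hNp]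
          refine Real.rpow_le_rpow_of_exponent_le hN1 ?_
          push_cast
          linarith
        have h2 : (N : ℝ) ^ (3 / 2 : ℝ) ≤ (N : ℝ) ^ (2 - c₀) :=
          Real.rpow_le_rpow_of_exponent_le hN1 (by linarith)
        have h3 : 14 * (N : ℝ) ^ 2 / Y = 14 * ((N : ℝ) ^ 2 / Y) := by ring
        rw [h3]
        linarith
    _ = (68 * C ^ (r + 1) * Real.log N) * ((N : ℝ) ^ (4 * e * (r + 1)) * (N : ℝ) ^ (2 - c₀)) := by
        have h1 : ((N : ℝ) ^ (4 * e)) ^ r * (N : ℝ) ^ (4 * e) = (N : ℝ) ^ (4 * e * (r + 1)) := by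
          rw [← pow_succ, ← Real.rpow_natCast ((N : ℝ) ^ (4 * e)) (r + 1), ← Real.rpow_mul hNp.le]
          push_cast
          rfl
        rw [hW, mul_pow, ← h1, pow_succ]
        ring
    _ ≤ (N : ℝ) ^ (c₀ / 4) * ((N : ℝ) ^ (4 * e * (r + 1)) * (N : ℝ) ^ (2 - c₀)) :=
        mul_le_mul_of_nonneg_right hlog (by positivity)
    _ = (N : ℝ) ^ (2 - c₀ / 2) := by
        rw [← Real.rpow_add hNp, ← Real.rpow_add hNp]
        congr 1
        rw [he]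
        field_simp
        ring

end Pool.Agent.XE
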