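import Pool.Agent.helper15.XE.SpecC

/-!
# Project XE, row TSB: bounds of `TS` (port of row TSB of project EC)
-/

set_option autoImplicit false

namespace Pool.Agent.XE

open Finset ArithmeticFunction
open Pool.Agent.EC (tri TL wt mt Adm edg mnf tI tII tyI cvl KK yN UN TUP TLe GdT)
open Pool.Agent.CH (rgh Mo ClP ClB)
open GD (kp ks)

/-- the large prime factors -/
noncomputable def TSB_S (N m : ℕ) : Finset ℕ :=
  by
    classical exact m.primeFactors.filter fun p : ℕ => (N : ℝ) ^ (36 / 232 : ℝ) ≤ (p : ℝ)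

theorem TSB_card (N m : ℕ) (hN : 2 ≤ N) (hm : m ≤ 64 * N ^ 3) : #(TSB_S N m) ≤ 58 := by
  classical
  rcases Nat.eq_zero_or_pos m with h0 | h0
  · subst h0
    simp [TSB_S]
  have hNr : (2 : ℝ) ≤ (N : ℝ) := by exact_mod_cast hN
  have hN0 : (0 : ℝ) ≤ (N : ℝ) := by linarith
  have hN1 : (1 : ℝ) < (N : ℝ) := by linarith
  have h1 : ∏ p ∈ TSB_S N m, p ≤ m := by
    have h2 : ∏ p ∈ TSB_S N m, p ∣ ∏ p ∈ m.primeFactors, p :=
      Finset.prod_dvd_prod_of_subset _ _ _ (Finset.filter_subset _ _)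
    exact Nat.le_of_dvd h0 (h2.trans (Nat.prod_primeFactors_dvd m))
  have h3 : ((N : ℝ) ^ (36 / 232 : ℝ)) ^ #(TSB_S N m) ≤ ∏ p ∈ TSB_S N m, (p : ℝ) := by
    rw [← Finset.prod_const]
    apply Finset.prod_le_prod
    · intro p _
      exact Real.rpow_nonneg hN0 _
    · intro p hp
      unfold TSB_S at hp
      rw [Finset.mem_filter] at hp
      exact hp.2
  have h4 : ∏ p ∈ TSB_S N m, (p : ℝ) ≤ (N : ℝ) ^ (9 : ℝ) := by
    have e1 : ∏ p ∈ TSB_S N m, (p : ℝ) = ((∏ p ∈ TSB_S N m, p : ℕ) : ℝ) := by push_cast; rfl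
    rw [e1]
    have e2 : ((∏ p ∈ TSB_S N m, p : ℕ) : ℝ) ≤ ((64 * N ^ 3 : ℕ) : ℝ) := by
      exact_mod_cast h1.trans hm
    refine e2.trans ?_
    have e3 : (N : ℝ) ^ (9 : ℝ) = (N : ℝ) ^ 9 := by
      rw [← Real.rpow_natCast]
      norm_num
    rw [e3]
    push_cast
    have e4 : (64 : ℝ) ≤ (N : ℝ) ^ 6 := by
      calc (64 : ℝ) = 2 ^ 6 := by norm_num
        _ ≤ (N : ℝ) ^ 6 := pow_le_pow_left₀ (by norm_num) hNr 6
    calc 64 * (N : ℝ) ^ 3 ≤ (N : ℝ) ^ 6 * (N : ℝ) ^ 3 :=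
          mul_le_mul_of_nonneg_right e4 (by positivity)
      _ = (N : ℝ) ^ 9 := by ring
  have h5 := h3.trans h4
  rw [← Real.rpow_natCast, ← Real.rpow_mul hN0, Real.rpow_le_rpow_left_iff hN1] at h5
  have h6 : (#(TSB_S N m) : ℝ) < 59 := by linarith
  have h7 : #(TSB_S N m) < 59 := by exact_mod_cast h6
  omega

theorem TSB_TL0 {r : ℕ} (N m : ℕ) (a b : Fin r → ℝ) : 0 ≤ TL N a b m := by
  unfold TL
  apply Finset.sum_nonneg
  intro p _
  exact vonMangoldt_nonneg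

theorem TSB_TL {r : ℕ} (N m : ℕ) (a b : Fin r → ℝ) (hN : 2 ≤ N) (hm : m ≤ 64 * N ^ 3)
    (ha : ∀ i, (36 / 232 : ℝ) ≤ a i) : TL N a b m ≤ 58 ^ r * (9 * Real.log N) := by
  classical
  have hNr : (2 : ℝ) ≤ (N : ℝ) := by exact_mod_cast hN
  have hN1 : (1 : ℝ) ≤ (N : ℝ) := by linarith
  have hlog : 0 ≤ Real.log N := Real.log_nonneg hN1
  unfold TL
  have hL : ∀ p ∈ (Fintype.piFinset fun _ : Fin r => m.primeFactors).filter fun p =>
      (∀ i, (N : ℝ) ^ a i ≤ (p i : ℝ) ∧ (p i : ℝ) < (N : ℝ) ^ b i) ∧ ∏ i, p i ∣ m,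
      vonMangoldt (m / ∏ i, p i) ≤ 9 * Real.log N := by
    intro p _
    refine vonMangoldt_le_log.trans ?_
    have h1 : m / ∏ i, p i ≤ N ^ 9 := by
      refine (Nat.div_le_self _ _).trans (hm.trans ?_)
      have e4 : 64 ≤ N ^ 6 := by
        calc 64 = 2 ^ 6 := by norm_num
          _ ≤ N ^ 6 := Nat.pow_le_pow_left hN 6
      calc 64 * N ^ 3 ≤ N ^ 6 * N ^ 3 := Nat.mul_le_mul_right _ e4
        _ = N ^ 9 := by ring
    rcases Nat.eq_zero_or_pos (m / ∏ i, p i) with h0 | h0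
    · rw [h0]
      simp only [Nat.cast_zero, Real.log_zero]
      positivity
    · have h2 : Real.log ((m / ∏ i, p i : ℕ) : ℝ) ≤ Real.log ((N ^ 9 : ℕ) : ℝ) := by
        apply Real.log_le_log
        · exact_mod_cast h0
        · exact_mod_cast h1
      refine h2.trans (le_of_eq ?_)
      push_cast
      rw [Real.log_pow]
      norm_num
  refine (Finset.sum_le_card_nsmul _ _ _ hL).trans ?_
  rw [nsmul_eq_mul]
  apply mul_le_mul_of_nonneg_right _ (by positivity)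
  have hsub : ((Fintype.piFinset fun _ : Fin r => m.primeFactors).filter fun p =>
      (∀ i, (N : ℝ) ^ a i ≤ (p i : ℝ) ∧ (p i : ℝ) < (N : ℝ) ^ b i) ∧ ∏ i, p i ∣ m) ⊆
      Fintype.piFinset fun _ : Fin r => TSB_S N m := by
    intro p hp
    rw [Finset.mem_filter, Fintype.mem_piFinset] at hp
    rw [Fintype.mem_piFinset]
    intro i
    unfold TSB_S
    rw [Finset.mem_filter]
    refine ⟨hp.1 i, ?_⟩
    exact (Real.rpow_le_rpow_of_exponent_le hN1 (ha i)).trans (hp.2.1 i).1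
  have hc := Finset.card_le_card hsub
  rw [Fintype.card_piFinset, Finset.prod_const, Finset.card_univ, Fintype.card_fin] at hc
  have hc2 := hc.trans (Nat.pow_le_pow_left (TSB_card N m hN hm) r)
  exact_mod_cast hc2

theorem TSB_z (r : ℕ) : zX r ≤ yX r := by
  unfold zX yX
  split_ifs <;> norm_num

theorem TSB_JX {b : Bool} {r : ℕ} {j : Fin r → ℕ} (h : j ∈ JX b r) :
    (∀ i, zX r ≤ j i) ∧ ∀ i, j i + ∑ k, j k ≤ hX r := by
  unfold JX at h
  rw [Finset.mem_filter, Fintype.mem_piFinset] at h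
  refine ⟨?_, h.2⟩
  intro i
  have h1 := h.1 i
  split_ifs at h1
  · rw [Finset.mem_Ico] at h1
    exact h1.1
  · rw [Finset.mem_Ico] at h1
    exact (TSB_z r).trans h1.1

theorem TSB_aX {b : Bool} {r : ℕ} {j : Fin r → ℕ} (h : j ∈ JX b r) (i : Fin r) :
    (36 / 232 : ℝ) ≤ aX j i := by
  have h1 := (TSB_JX h).1 i
  unfold aX
  by_cases hr : r = 3
  · have e1 : hX r = 232 := by unfold hX; rw [if_pos hr]
    have e2 : zX r = 12 := by unfold zX; rw [if_pos hr]
    rw [e2] at h1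
    rw [e1]
    have h2 : (12 : ℝ) ≤ (j i : ℝ) := by exact_mod_cast h1
    push_cast
    linarith
  · have e1 : hX r = 116 := by unfold hX; rw [if_neg hr]
    have e2 : zX r = 6 := by unfold zX; rw [if_neg hr]
    rw [e2] at h1
    rw [e1]
    have h2 : (6 : ℝ) ≤ (j i : ℝ) := by exact_mod_cast h1
    push_cast
    linarith

theorem TSB_om (b : Bool) (r : ℕ) : 0 ≤ om b r := by
  unfold om
  split_ifs <;> positivity

theorem TSB_pX {b : Bool} {r : ℕ} {j : Fin r → ℕ} (h : j ∈ JX b r) (hr : 1 ≤ r) (hr5 : r ≤ 5) :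
    0 ≤ pX r (∑ i, j i) := by
  obtain ⟨h1, h2⟩ := TSB_JX h
  have h3 := h1 ⟨0, hr⟩
  have h4 := h2 ⟨0, hr⟩
  have h5 : 6 ≤ zX r := by
    unfold zX
    split_ifs <;> norm_num
  have h6 : ∑ i, j i + r ≤ hX r := by omega
  have h7 : ((∑ i, j i : ℕ) : ℝ) + r ≤ (hX r : ℝ) := by exact_mod_cast h6
  unfold pX
  apply div_nonneg (Nat.cast_nonneg _)
  linarith

theorem TSB : TSB_stmt := by
  obtain ⟨C0, hC0⟩ : ∃ C0 : ℝ, C0 = ∑ b : Bool, ∑ r ∈ Icc 3 5, ∑ j ∈ JX b r,
    om b r * pX r (∑ i, j i) * (3 * 58 ^ r) := ⟨_, rfl⟩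
  have hcoef : ∀ (b : Bool), ∀ r ∈ Icc 3 5, ∀ j ∈ JX b r, 0 ≤ om b r * pX r (∑ i, j i) := by
    intro b r hr j hj
    rw [Finset.mem_Icc] at hr
    exact mul_nonneg (TSB_om _ _) (TSB_pX hj (by omega) hr.2)
  have hC0n : 0 ≤ C0 := by
    rw [hC0]
    apply Finset.sum_nonneg
    intro b _
    apply Finset.sum_nonneg
    intro r hr
    apply Finset.sum_nonneg
    intro j hj
    exact mul_nonneg (hcoef b r hr j hj) (by positivity)
  refine ⟨C0 + 1, by linarith, ?_⟩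
  intro N hN m
  have hNr : (2 : ℝ) ≤ (N : ℝ) := by exact_mod_cast hN
  have hlog : 0 < Real.log N := Real.log_pos (by linarith)
  constructor
  · unfold TS
    apply Finset.sum_nonneg
    intro b _
    apply Finset.sum_nonneg
    intro r hr
    apply Finset.sum_nonneg
    intro j hj
    apply mul_nonneg _ (TSB_TL0 _ _ _ _)
    exact div_nonneg (hcoef b r hr j hj) (by positivity)
  · intro hm
    have key : TS N m ≤ C0 := by
      unfold TS
      rw [hC0]
      apply Finset.sum_le_sum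
      intro b _
      apply Finset.sum_le_sum
      intro r hr
      apply Finset.sum_le_sum
      intro j hj
      have hc := hcoef b r hr j hj
      have hT := TSB_TL N m (aX j) (bX j) hN hm (TSB_aX hj)
      calc om b r * pX r (∑ i, j i) / (3 * Real.log N) * TL N (aX j) (bX j) m
          ≤ om b r * pX r (∑ i, j i) / (3 * Real.log N) * (58 ^ r * (9 * Real.log N)) :=
            mul_le_mul_of_nonneg_left hT (div_nonneg hc (by positivity))
        _ = om b r * pX r (∑ i, j i) * (3 * 58 ^ r) := by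
            field_simp
            ring
    linarith

end Pool.Agent.XE
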