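import Pool.Agent.helper15.XE.SpecC

/-!
# Project XE, row WND: one window (port of row WND of project EC)
-/

set_option autoImplicit false

namespace Pool.Agent.XE

open Finset ArithmeticFunction
open Pool.Agent.EC (tri TL wt mt Adm edg mnf tI tII tyI cvl KK yN UN TUP TLe GdT)
open Pool.Agent.CH (rgh Mo ClP ClB)
open GD (kp ks)

private lemma WND_psi_le (N a : ℕ) : psi0 N a ≤ 1 := by
  classical
  unfold psi0
  split_ifs
  · norm_num
  · have : (0 : ℝ) ≤ (#(a.primeFactors.filter fun q : ℕ =>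
        (N : ℝ) ^ az ≤ (q : ℝ) ∧ (q : ℝ) < (N : ℝ) ^ ay) : ℝ) := Nat.cast_nonneg _
    linarith

private lemma WND_log {N j : ℕ} (hN : 12 ≤ N) {v : ℝ} (hv : InB N v) (h : wv N v j ≠ 0) :
    Real.log j ≤ 3 * Real.log N + 1 := by
  have hN0 : (0 : ℝ) < (N : ℝ) := by exact_mod_cast (lt_of_lt_of_le (by norm_num) hN)
  have h1 : 0 < 1 - |Real.log j - v| / (1 / (N : ℝ)) := by
    by_contra hcon
    push Not at hcon
    exact h (max_eq_left hcon)
  have h2 : |Real.log j - v| / (1 / (N : ℝ)) < 1 := by linarith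
  rw [div_lt_one (by positivity)] at h2
  have h3 := (abs_lt.1 h2).2
  have h4 : (1 : ℝ) / N ≤ 1 / 12 := by
    apply one_div_le_one_div_of_le (by norm_num)
    exact_mod_cast hN
  have := hv.2
  linarith

open Classical in
/-- The pointwise inequality. -/
private lemma WND_pt {N : ℕ} (hN : 12 ≤ N) {v : ℝ} (hv : InB N v)
    (hC : ∀ a : ℕ, N ^ 3 < a → a ≤ 3 * N ^ 3 → Nat.Coprime a 30 →
      (∀ q : ℕ, q.Prime → (N : ℝ) ^ az ≤ (q : ℝ) → ¬ q ^ 2 ∣ a) → 0 < psi0 N a - TS N a →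
      cardFactors a ≤ 3 ∧ ∀ q ∈ a.primeFactors, 2 * N < q ^ 7)
    (hT : ∀ m : ℕ, 0 ≤ TS N m)
    (hX : ∀ j : ℕ, 0 ≤ wv N v j ∧ wv N v j ≤ 1 ∧ (wv N v j ≠ 0 → N ^ 3 < j ∧ j + 6 ≤ 3 * N ^ 3))
    {j : ℕ} (hj : j ∈ Z3 N) (hj30 : j % 30 = 1) :
    vonMangoldt j * wv N v j * psi0 N (j + 6) ≤ (3 * Real.log N + 1) *
      ((if wv N v j ≠ 0 ∧ ¬ j.Prime ∧ vonMangoldt j ≠ 0 then (1 : ℝ) else 0) + (if j ∈ GX N v then (1 : ℝ) else 0) +
        (if wv N v j ≠ 0 ∧ ∃ q : ℕ, q.Prime ∧ (N : ℝ) ^ az ≤ (q : ℝ) ∧ q ^ 2 ∣ j + 6 then (1 : ℝ) else 0) +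
        (if j.Prime then wv N v j * TS N (j + 6) else 0)) := by
  have hN1 : (1 : ℝ) ≤ (N : ℝ) := by exact_mod_cast (le_trans (by norm_num) hN)
  have hL0 : 0 ≤ 3 * Real.log (N : ℝ) + 1 := by
    have := Real.log_nonneg hN1
    linarith
  obtain ⟨hf0, hf1, hfs⟩ := hX j
  have hw := WND_psi_le N (j + 6)
  have hLam0 : 0 ≤ vonMangoldt j := vonMangoldt_nonneg
  have hTj := hT (j + 6)
  have e1 : (0 : ℝ) ≤ (if wv N v j ≠ 0 ∧ ¬ j.Prime ∧ vonMangoldt j ≠ 0 then (1 : ℝ) else 0) := by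
    split_ifs <;> norm_num
  have e2 : (0 : ℝ) ≤ (if j ∈ GX N v then (1 : ℝ) else 0) := by split_ifs <;> norm_num
  have e3 : (0 : ℝ) ≤ (if wv N v j ≠ 0 ∧ ∃ q : ℕ, q.Prime ∧ (N : ℝ) ^ az ≤ (q : ℝ) ∧ q ^ 2 ∣ j + 6 then (1 : ℝ) else 0) := by
    split_ifs <;> norm_num
  have e4 : (0 : ℝ) ≤ (if j.Prime then wv N v j * TS N (j + 6) else 0) := by
    split_ifs
    · exact mul_nonneg hf0 hTj
    · exact le_rfl
  by_cases hf : wv N v j = 0
  · have h0 : vonMangoldt j * wv N v j * psi0 N (j + 6) = 0 := by rw [hf, mul_zero, zero_mul]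
    rw [h0]
    exact mul_nonneg hL0 (by linarith)
  have hL : Real.log j ≤ 3 * Real.log N + 1 := WND_log hN hv hf
  have hLam : vonMangoldt j ≤ 3 * Real.log N + 1 := vonMangoldt_le_log.trans hL
  set w := psi0 N (j + 6) with hwdef
  set L := 3 * Real.log (N : ℝ) + 1 with hLdef
  set t := TS N (j + 6) with htdef
  set f := wv N v j with hfdef
  have hLf : vonMangoldt j * f ≤ L * f := mul_le_mul_of_nonneg_right hLam hf0
  have hLf0 : 0 ≤ vonMangoldt j * f := mul_nonneg hLam0 hf0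
  obtain ⟨ha1, ha2⟩ := hfs hf
  by_cases hp : j.Prime
  · by_cases hpos : 0 < w - t
    · have hw0 : 0 ≤ w := by linarith
      have hone : (1 : ℝ) ≤ (if j ∈ GX N v then (1 : ℝ) else 0) +
          (if f ≠ 0 ∧ ∃ q : ℕ, q.Prime ∧ (N : ℝ) ^ az ≤ (q : ℝ) ∧ q ^ 2 ∣ j + 6 then (1 : ℝ) else 0) := by
        by_cases h3 : ∃ q : ℕ, q.Prime ∧ (N : ℝ) ^ az ≤ (q : ℝ) ∧ q ^ 2 ∣ j + 6
        · rw [if_pos (⟨hf, h3⟩ : f ≠ 0 ∧ ∃ q : ℕ, q.Prime ∧ (N : ℝ) ^ az ≤ (q : ℝ) ∧ q ^ 2 ∣ j + 6)]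
          linarith
        · have hcop : Nat.Coprime (j + 6) 30 := by
            have h7 : (j + 6) % 30 = 7 := by omega
            rw [Nat.coprime_iff_gcd_eq_one, Nat.gcd_comm, Nat.gcd_rec, h7]
            norm_num
          have hcom := hC (j + 6) (by omega) ha2 hcop
            (fun q hq hz hd => h3 ⟨q, hq, hz, hd⟩) hpos
          have hG : j ∈ GX N v := by
            unfold GX
            rw [Finset.mem_filter]
            exact ⟨hj, hp, hf, hj30, hcom.1, hcom.2⟩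
          rw [if_pos hG]
          have : (0 : ℝ) ≤ (if f ≠ 0 ∧ ∃ q : ℕ, q.Prime ∧ (N : ℝ) ^ az ≤ (q : ℝ) ∧ q ^ 2 ∣ j + 6 then (1 : ℝ) else 0) := e3
          linarith
      have h5 : f * w ≤ 1 := by
        calc f * w ≤ 1 * w := mul_le_mul_of_nonneg_right hf1 hw0
          _ = w := one_mul w
          _ ≤ 1 := hw
      calc vonMangoldt j * f * w ≤ L * f * w := mul_le_mul_of_nonneg_right hLf hw0
        _ = L * (f * w) := by ring
        _ ≤ _ := mul_le_mul_of_nonneg_left (by linarith) hL0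
    · have hle : w ≤ t := by linarith
      have h6 : vonMangoldt j * f * w ≤ L * (f * t) := by
        calc vonMangoldt j * f * w ≤ vonMangoldt j * f * t := mul_le_mul_of_nonneg_left hle hLf0
          _ ≤ L * f * t := mul_le_mul_of_nonneg_right hLf hTj
          _ = L * (f * t) := by ring
      refine h6.trans (mul_le_mul_of_nonneg_left ?_ hL0)
      rw [if_pos hp]
      linarith
  · by_cases hz : vonMangoldt j = 0
    · have h0 : vonMangoldt j * f * w = 0 := by rw [hz, zero_mul, zero_mul]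
      rw [h0]
      exact mul_nonneg hL0 (by linarith)
    · rw [if_pos (⟨hf, hp, hz⟩ : f ≠ 0 ∧ ¬ j.Prime ∧ vonMangoldt j ≠ 0)]
      have h7 : vonMangoldt j * f * w ≤ L * 1 := by
        calc vonMangoldt j * f * w ≤ vonMangoldt j * f * 1 := mul_le_mul_of_nonneg_left hw hLf0
          _ = vonMangoldt j * f := mul_one _
          _ ≤ L * f := hLf
          _ ≤ L * 1 := mul_le_mul_of_nonneg_left hf1 hL0
      exact h7.trans (mul_le_mul_of_nonneg_left (by linarith) hL0)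

/-- `N ^ a2 ≤ N ^ 3`. -/
private lemma WND_a2 {N j : ℕ} (hN : 1 ≤ N) (hj : N ^ 3 < j) : (N : ℝ) ^ a2 ≤ (j : ℝ) := by
  have hN1 : (1 : ℝ) ≤ (N : ℝ) := by exact_mod_cast hN
  have h1 : (N : ℝ) ^ a2 ≤ (N : ℝ) ^ (3 : ℝ) := by
    apply Real.rpow_le_rpow_of_exponent_le hN1
    unfold a2
    norm_num
  have h2 : (N : ℝ) ^ (3 : ℝ) = (N : ℝ) ^ 3 := by norm_num
  have h3 : ((N ^ 3 : ℕ) : ℝ) ≤ (j : ℝ) := by exact_mod_cast hj.le
  push_cast at h3
  rw [h2] at h1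
  linarith

open Classical in
/-- The switched part. -/
private lemma WND_sw {N : ℕ} (hN : 12 ≤ N) (v : ℝ) (C : ℝ) (hC0 : 0 < C)
    (hT : ∀ m : ℕ, 0 ≤ TS N m ∧ (m ≤ 64 * N ^ 3 → TS N m ≤ C))
    (hX : ∀ j : ℕ, 0 ≤ wv N v j ∧ wv N v j ≤ 1 ∧ (wv N v j ≠ 0 → N ^ 3 < j ∧ j + 6 ≤ 3 * N ^ 3) ∧
      (N ^ 3 ≤ j → |wv N v j - wv N v (j + 6)| ≤ 6 / (N : ℝ) ^ 2))
    (l₂ : ℕ → ℝ)
    (h2 : ∀ a : ℕ, 1 ≤ a → (if ∃ q : ℕ, q.Prime ∧ q ∣ a ∧ 7 ≤ q ∧ (q : ℝ) < (N : ℝ) ^ a2 then (0 : ℝ) else 1) ≤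
      wt l₂ a) :
    ∑ j ∈ (Z3 N).filter (fun j => j % 30 = 1), (if j.Prime then wv N v j * TS N (j + 6) else 0) ≤
      ∑ m ∈ (Z3 N).filter (fun m => m % 30 = 7), TS N m * wv N v m * wt l₂ (m - 6) + 384 * C * N := by
  have hN0 : (0 : ℝ) < (N : ℝ) := by exact_mod_cast (lt_of_lt_of_le (by norm_num) hN)
  obtain ⟨S, hS⟩ : ∃ S, S = (((Z3 N).filter (fun j => j % 30 = 1)).filter (fun j => j.Prime)).filter
      (fun j => wv N v j ≠ 0) := ⟨_, rfl⟩
  have hmem : ∀ j ∈ S, j ∈ Z3 N ∧ j % 30 = 1 ∧ j.Prime ∧ wv N v j ≠ 0 := by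
    intro j hj
    rw [hS, Finset.mem_filter, Finset.mem_filter, Finset.mem_filter] at hj
    exact ⟨hj.1.1.1, hj.1.1.2, hj.1.2, hj.2⟩
  rw [← Finset.sum_filter]
  have hz0 : ∑ j ∈ ((Z3 N).filter (fun j => j % 30 = 1)).filter (fun j => j.Prime), wv N v j * TS N (j + 6) =
      ∑ j ∈ S, wv N v j * TS N (j + 6) := by
    rw [hS]
    conv_rhs => rw [Finset.sum_filter]
    refine Finset.sum_congr rfl fun j _ => ?_
    split_ifs with h
    · rfl
    · push Not at h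
      rw [h, zero_mul]
  rw [hz0]
  have hstep : ∑ j ∈ S, wv N v j * TS N (j + 6) ≤
      ∑ j ∈ S, (TS N (j + 6) * wv N v (j + 6) + 6 / (N : ℝ) ^ 2 * C) := by
    apply Finset.sum_le_sum
    intro j hj
    obtain ⟨-, -, -, hne⟩ := hmem j hj
    obtain ⟨ha, hb⟩ := (hX j).2.2.1 hne
    have h3 := (hX j).2.2.2 ha.le
    have h4 : wv N v j ≤ wv N v (j + 6) + 6 / (N : ℝ) ^ 2 := by
      have := (abs_le.1 h3).2
      linarith
    have h5 := hT (j + 6)
    have h6 : TS N (j + 6) ≤ C := h5.2 (by omega)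
    calc wv N v j * TS N (j + 6) ≤ (wv N v (j + 6) + 6 / (N : ℝ) ^ 2) * TS N (j + 6) :=
          mul_le_mul_of_nonneg_right h4 h5.1
      _ = TS N (j + 6) * wv N v (j + 6) + 6 / (N : ℝ) ^ 2 * TS N (j + 6) := by ring
      _ ≤ _ := by
          have h7 : 6 / (N : ℝ) ^ 2 * TS N (j + 6) ≤ 6 / (N : ℝ) ^ 2 * C :=
            mul_le_mul_of_nonneg_left h6 (by positivity)
          linarith
  refine hstep.trans ?_
  rw [Finset.sum_add_distrib]
  have hconst : ∑ j ∈ S, 6 / (N : ℝ) ^ 2 * C ≤ 384 * C * N := by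
    rw [Finset.sum_const, nsmul_eq_mul]
    have h8 : ((#S : ℕ) : ℝ) ≤ 64 * (N : ℝ) ^ 3 := by
      have h9 : #S ≤ 64 * N ^ 3 := by
        have h10 : #S ≤ #(Z3 N) := Finset.card_le_card fun j hj => (hmem j hj).1
        have h11 : #(Z3 N) = 64 * N ^ 3 := by
          unfold Z3
          rw [Nat.card_Ioc, Nat.sub_zero]
        rwa [h11] at h10
      exact_mod_cast h9
    calc ((#S : ℕ) : ℝ) * (6 / (N : ℝ) ^ 2 * C) ≤ 64 * (N : ℝ) ^ 3 * (6 / (N : ℝ) ^ 2 * C) :=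
          mul_le_mul_of_nonneg_right h8 (by positivity)
      _ = 384 * C * N := by
          field_simp
          ring
  have hmain : ∑ j ∈ S, TS N (j + 6) * wv N v (j + 6) ≤
      ∑ m ∈ (Z3 N).filter (fun m => m % 30 = 7), TS N m * wv N v m * wt l₂ (m - 6) := by
    have hinj : Set.InjOn (fun j : ℕ => j + 6) (S : Finset ℕ) := by
      intro a _ b _ hab
      simpa using hab
    calc ∑ j ∈ S, TS N (j + 6) * wv N v (j + 6)
        ≤ ∑ j ∈ S, TS N (j + 6) * wv N v (j + 6) * wt l₂ (j + 6 - 6) := by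
          apply Finset.sum_le_sum
          intro j hj
          obtain ⟨-, -, hjp, hne⟩ := hmem j hj
          obtain ⟨ha, -⟩ := (hX j).2.2.1 hne
          have hsub : j + 6 - 6 = j := Nat.add_sub_cancel j 6
          rw [hsub]
          have h11 : 1 ≤ wt l₂ j := by
            have := h2 j hjp.one_lt.le
            rw [if_neg] at this
            · exact this
            · rintro ⟨q, hq, hqj, -, hqz⟩
              have hqe : q = j := (Nat.prime_dvd_prime_iff_eq hq hjp).1 hqj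
              subst hqe
              have := WND_a2 (N := N) (j := q) (by omega) ha
              linarith
          have h12 : 0 ≤ TS N (j + 6) * wv N v (j + 6) := mul_nonneg (hT _).1 (hX _).1
          exact le_mul_of_one_le_right h12 h11
      _ = ∑ m ∈ S.image (fun j => j + 6), TS N m * wv N v m * wt l₂ (m - 6) := by
          rw [Finset.sum_image hinj]
      _ ≤ _ := by
          apply Finset.sum_le_sum_of_subset_of_nonneg
          · intro m hm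
            rw [Finset.mem_image] at hm
            obtain ⟨j, hj, rfl⟩ := hm
            obtain ⟨-, hj30, -, hne⟩ := hmem j hj
            obtain ⟨-, hb⟩ := (hX j).2.2.1 hne
            rw [Finset.mem_filter]
            refine ⟨?_, by omega⟩
            unfold Z3
            rw [Finset.mem_Ioc]
            constructor
            · omega
            · have : 3 * N ^ 3 ≤ 64 * N ^ 3 := Nat.mul_le_mul_right _ (by norm_num)
              omega
          · intro m hm _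
            rw [Finset.mem_filter] at hm
            have := h2 (m - 6) (by omega)
            have h13 : 0 ≤ wt l₂ (m - 6) := by
              refine le_trans ?_ this
              split_ifs <;> norm_num
            exact mul_nonneg (mul_nonneg (hT _).1 (hX _).1) h13
  linarith

/-- **WND**: one window. -/
theorem WND (h1 : COM_stmt) (h2 : TSB_stmt) (h3 : WVB_stmt) (h4 : SQ4_stmt) : WND_stmt := by
  classical
  obtain ⟨N₁, hC⟩ := h1
  obtain ⟨C, hC0, hT⟩ := h2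
  obtain ⟨N₂, hN₂, hX⟩ := h3
  obtain ⟨N₃, hS⟩ := h4
  refine ⟨max (max N₁ N₂) (max N₃ ⌈(768 * C) ^ 2⌉₊), ?_⟩
  intro N hN v hv l₁ l₂ g1 g2
  have hN1 : N₁ ≤ N := le_trans (le_trans (le_max_left _ _) (le_max_left _ _)) hN
  have hN2 : N₂ ≤ N := le_trans (le_trans (le_max_right _ _) (le_max_left _ _)) hN
  have hN3 : N₃ ≤ N := le_trans (le_trans (le_max_left _ _) (le_max_right _ _)) hN
  have hN5 : ⌈(768 * C) ^ 2⌉₊ ≤ N := le_trans (le_trans (le_max_right _ _) (le_max_right _ _)) hN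
  have hN4 : 12 ≤ N := hN₂.trans hN2
  have hCN : (768 * C) ^ 2 ≤ (N : ℝ) := (Nat.le_ceil _).trans (by exact_mod_cast hN5)
  have hNr : (1 : ℝ) ≤ (N : ℝ) := by exact_mod_cast (le_trans (by norm_num) hN4)
  have hTN := fun m => hT N (by omega) m
  obtain ⟨-, -, -, hXN⟩ := (hX N hN2).1 v hv
  obtain ⟨hSq, hSp⟩ := hS N hN3 v hv
  obtain ⟨L, hLdef⟩ : ∃ L, L = 3 * Real.log (N : ℝ) + 1 := ⟨_, rfl⟩
  have hL0 : 0 ≤ L := by
    have : 0 ≤ Real.log (N : ℝ) := Real.log_nonneg hNr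
    linarith
  rw [← hLdef]
  have step1 : ∑ j ∈ Z3 N with j % 30 = 1, vonMangoldt j * wv N v j * wt l₁ (j + 6) ≤
      ∑ j ∈ Z3 N with j % 30 = 1, L *
      ((if wv N v j ≠ 0 ∧ ¬ j.Prime ∧ vonMangoldt j ≠ 0 then (1 : ℝ) else 0) + (if j ∈ GX N v then (1 : ℝ) else 0) +
        (if wv N v j ≠ 0 ∧ ∃ q : ℕ, q.Prime ∧ (N : ℝ) ^ az ≤ (q : ℝ) ∧ q ^ 2 ∣ j + 6 then (1 : ℝ) else 0) +
        (if j.Prime then wv N v j * TS N (j + 6) else 0)) := by
    apply Finset.sum_le_sum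
    intro j hj
    rw [Finset.mem_filter] at hj
    rw [hLdef]
    refine le_trans ?_ (WND_pt hN4 hv (hC N hN1) (fun m => (hTN m).1)
      (fun j => ⟨(hXN j).1, (hXN j).2.1, (hXN j).2.2.1⟩) hj.1 hj.2)
    exact mul_le_mul_of_nonneg_left (g1 (j + 6) (by omega))
      (mul_nonneg vonMangoldt_nonneg (hXN j).1)
  rw [← Finset.mul_sum] at step1
  rw [Finset.sum_add_distrib, Finset.sum_add_distrib, Finset.sum_add_distrib] at step1
  have hf : ∀ (P : ℕ → Prop) [DecidablePred P],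
      #(((Z3 N).filter fun j => j % 30 = 1).filter P) ≤ #((Z3 N).filter P) := by
    intro P _
    exact Finset.card_le_card (Finset.filter_subset_filter _ (Finset.filter_subset _ _))
  have k1 : ∑ j ∈ Z3 N with j % 30 = 1,
      (if wv N v j ≠ 0 ∧ ¬ j.Prime ∧ vonMangoldt j ≠ 0 then (1 : ℝ) else 0) ≤ (N : ℝ) ^ (39 / 20 : ℝ) / 4 := by
    rw [Finset.sum_boole]
    refine le_trans ?_ hSp
    exact_mod_cast (hf _)
  have k2 : ∑ j ∈ Z3 N with j % 30 = 1, (if j ∈ GX N v then (1 : ℝ) else 0) ≤ (#(GX N v) : ℝ) := by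
    rw [Finset.sum_boole]
    have : #(((Z3 N).filter fun j => j % 30 = 1).filter fun j : ℕ => j ∈ GX N v) ≤ #(GX N v) := by
      apply Finset.card_le_card
      intro j hj
      exact (Finset.mem_filter.1 hj).2
    exact_mod_cast this
  have k3 : ∑ j ∈ Z3 N with j % 30 = 1,
      (if wv N v j ≠ 0 ∧ ∃ q : ℕ, q.Prime ∧ (N : ℝ) ^ az ≤ (q : ℝ) ∧ q ^ 2 ∣ j + 6 then (1 : ℝ) else 0) ≤
      (N : ℝ) ^ (39 / 20 : ℝ) / 4 := by
    rw [Finset.sum_boole]
    refine le_trans ?_ hSq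
    exact_mod_cast (hf _)
  have k4 := WND_sw hN4 v C hC0 hTN hXN l₂ g2
  have hbig : 384 * C * N ≤ (N : ℝ) ^ (39 / 20 : ℝ) / 2 := by
    have b1 : (N : ℝ) * (N : ℝ) ^ (1 / 2 : ℝ) ≤ (N : ℝ) ^ (39 / 20 : ℝ) := by
      have hN0 : (0 : ℝ) < N := by linarith
      calc (N : ℝ) * (N : ℝ) ^ (1 / 2 : ℝ) = (N : ℝ) ^ (1 : ℝ) * (N : ℝ) ^ (1 / 2 : ℝ) := by rw [Real.rpow_one]
        _ = (N : ℝ) ^ (1 + 1 / 2 : ℝ) := by rw [← Real.rpow_add hN0]
        _ ≤ _ := Real.rpow_le_rpow_of_exponent_le hNr (by norm_num)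
    have b2 : 768 * C ≤ (N : ℝ) ^ (1 / 2 : ℝ) := by
      rw [← Real.sqrt_eq_rpow]
      exact Real.le_sqrt_of_sq_le hCN
    have b3 : (N : ℝ) * (768 * C) ≤ (N : ℝ) * (N : ℝ) ^ (1 / 2 : ℝ) :=
      mul_le_mul_of_nonneg_left b2 (by linarith)
    linarith
  obtain ⟨T, hTdef⟩ : ∃ T, T = ∑ m ∈ (Z3 N).filter (fun m => m % 30 = 7), TS N m * wv N v m * wt l₂ (m - 6) := ⟨_, rfl⟩
  rw [← hTdef] at k4
  have step2 : ∑ j ∈ Z3 N with j % 30 = 1, vonMangoldt j * wv N v j * wt l₁ (j + 6) ≤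
      L * ((#(GX N v) : ℝ) + (N : ℝ) ^ (39 / 20 : ℝ) + T) :=
    step1.trans (mul_le_mul_of_nonneg_left (by linarith) hL0)
  have e : L * ((#(GX N v) : ℝ) + (N : ℝ) ^ (39 / 20 : ℝ) + T) =
      L * ((#(GX N v) : ℝ) + (N : ℝ) ^ (39 / 20 : ℝ)) + L * T := by ring
  rw [e] at step2
  rw [← hTdef]
  linarith

end Pool.Agent.XE
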