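import Pool.Agent.helper15.XE.SpecS

/-!
# Project XE, row MLW: multiples of `d` in a window
-/

set_option autoImplicit false

namespace Pool.Agent.XE

open Finset ArithmeticFunction MeasureTheory
open Pool.Agent.EC (tri TL wt edg)
open Pool.Agent.CH (nit DPb Tset)
open Pool.Agent.SK (uu zN YN gj tr0)
open GD (ks)

private lemma MLW_log {N j : ℕ} (hN : 12 ≤ N) {v : ℝ} (h : wv N v j ≠ 0) :
    v - 1 / (N : ℝ) < Real.log j ∧ Real.log j < v + 1 / (N : ℝ) := by
  have hN0 : (0 : ℝ) < (N : ℝ) := by exact_mod_cast (lt_of_lt_of_le (by norm_num) hN)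
  have h1 : 0 < 1 - |Real.log j - v| / (1 / (N : ℝ)) := by
    by_contra hcon
    push Not at hcon
    exact h (max_eq_left hcon)
  have h2 : |Real.log j - v| / (1 / (N : ℝ)) < 1 := by linarith
  rw [div_lt_one (by positivity)] at h2
  have h3 := abs_lt.1 h2
  constructor <;> linarith [h3.1, h3.2]

theorem MLW : MLW_stmt := by
  intro N hN v hv d hd hdec
  have hN12 : (12 : ℝ) ≤ (N : ℝ) := by exact_mod_cast hN
  have hN0 : (0 : ℝ) < (N : ℝ) := by linarith
  have hd0 : (0 : ℝ) < (d : ℝ) := by exact_mod_cast hd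
  obtain ⟨S, hS⟩ : ∃ S, S = (Z3 N).filter fun j : ℕ => wv N v j ≠ 0 ∧ d ∣ j := ⟨_, rfl⟩
  rw [← hS]
  rcases S.eq_empty_or_nonempty with he | hne
  · rw [he, Finset.card_empty]
    push_cast
    positivity
  have hmem : ∀ j ∈ S, 0 < j ∧ wv N v j ≠ 0 ∧ d ∣ j := by
    intro j hj
    rw [hS, Finset.mem_filter] at hj
    unfold Z3 at hj
    rw [Finset.mem_Ioc] at hj
    exact ⟨hj.1.1, hj.2.1, hj.2.2⟩
  obtain ⟨m, hm⟩ : ∃ m, m = S.min' hne := ⟨_, rfl⟩
  obtain ⟨M, hM⟩ : ∃ M, M = S.max' hne := ⟨_, rfl⟩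
  have hmS : m ∈ S := by rw [hm]; exact S.min'_mem hne
  have hMS : M ∈ S := by rw [hM]; exact S.max'_mem hne
  have hle : ∀ j ∈ S, m ≤ j ∧ j ≤ M := by
    intro j hj
    rw [hm, hM]
    exact ⟨S.min'_le j hj, S.le_max' j hj⟩
  have hsub : S ⊆ (Finset.range ((M - m) / d + 1)).image fun k => m + d * k := by
    intro j hj
    obtain ⟨h1, h2⟩ := hle j hj
    obtain ⟨-, -, hdj⟩ := hmem j hj
    obtain ⟨-, -, hdm⟩ := hmem m hmS
    rw [Finset.mem_image]
    refine ⟨(j - m) / d, ?_, ?_⟩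
    · rw [Finset.mem_range]
      have : (j - m) / d ≤ (M - m) / d := Nat.div_le_div_right (Nat.sub_le_sub_right h2 m)
      omega
    · have h3 : d ∣ j - m := Nat.dvd_sub hdj hdm
      show m + d * ((j - m) / d) = j
      rw [Nat.mul_div_cancel' h3]
      omega
  have hcard : #S ≤ (M - m) / d + 1 := by
    refine (Finset.card_le_card hsub).trans ?_
    refine Finset.card_image_le.trans ?_
    rw [Finset.card_range]
  have hmM : m ≤ M := (hle m hmS).2
  obtain ⟨hm0, hwm, -⟩ := hmem m hmS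
  obtain ⟨hM0, hwM, -⟩ := hmem M hMS
  have hm0' : (0 : ℝ) < (m : ℝ) := by exact_mod_cast hm0
  have hM0' : (0 : ℝ) < (M : ℝ) := by exact_mod_cast hM0
  have l1 := MLW_log hN hwm
  have l2 := MLW_log hN hwM
  -- the length
  have h1 : (M : ℝ) * (1 - 2 / N) ≤ m := by
    have h2 : 1 - 2 / (N : ℝ) ≤ (m : ℝ) / M := by
      have h3 : Real.log ((m : ℝ) / M) = Real.log m - Real.log M := Real.log_div hm0'.ne' hM0'.ne'
      have h4 : -(2 / (N : ℝ)) ≤ Real.log ((m : ℝ) / M) := by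
        rw [h3]
        have e : 2 / (N : ℝ) = 1 / N + 1 / N := by ring
        rw [e]
        linarith [l1.1, l2.2]
      have h5 : Real.log ((m : ℝ) / M) ≤ (m : ℝ) / M - 1 := Real.log_le_sub_one_of_pos (by positivity)
      linarith
    rw [le_div_iff₀ hM0'] at h2
    linarith
  have h2 : (M : ℝ) ≤ 2.7182818286 * (N : ℝ) ^ 3 := by
    have h3 : Real.log M ≤ 3 * Real.log N + 1 := by
      have h4 : (1 : ℝ) / N ≤ 1 / 12 := one_div_le_one_div_of_le (by norm_num) hN12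
      have h5 := hv.2
      linarith [l2.2]
    have h6 : (M : ℝ) ≤ Real.exp (3 * Real.log N + 1) := by
      rw [← Real.exp_log hM0']
      exact Real.exp_le_exp.2 h3
    have h7 : Real.exp (3 * Real.log N + 1) = (N : ℝ) ^ 3 * Real.exp 1 := by
      rw [Real.exp_add]
      congr 1
      have : 3 * Real.log (N : ℝ) = Real.log ((N : ℝ) ^ 3) := by
        rw [Real.log_pow]
        norm_num
      rw [this, Real.exp_log (by positivity)]
    rw [h7] at h6
    refine h6.trans ?_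
    rw [mul_comm]
    exact mul_le_mul_of_nonneg_right Real.exp_one_lt_d9.le (by positivity)
  have h3 : (M : ℝ) - m ≤ 6 * (N : ℝ) ^ 2 := by
    have h4 : (M : ℝ) - m ≤ (M : ℝ) * (2 / N) := by linarith
    calc (M : ℝ) - m ≤ (M : ℝ) * (2 / N) := h4
      _ ≤ 2.7182818286 * (N : ℝ) ^ 3 * (2 / N) := mul_le_mul_of_nonneg_right h2 (by positivity)
      _ = 5.4365636572 * (N : ℝ) ^ 2 := by
        field_simp
        norm_num
      _ ≤ 6 * (N : ℝ) ^ 2 := by
        have : 0 ≤ (N : ℝ) ^ 2 := by positivity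
        linarith
  calc (#S : ℝ) ≤ (((M - m) / d + 1 : ℕ) : ℝ) := by exact_mod_cast hcard
    _ = (((M - m) / d : ℕ) : ℝ) + 1 := by push_cast; ring
    _ ≤ ((M - m : ℕ) : ℝ) / d + 1 := by
        have : (((M - m) / d : ℕ) : ℝ) ≤ ((M - m : ℕ) : ℝ) / (d : ℝ) := Nat.cast_div_le
        linarith
    _ = ((M : ℝ) - m) / d + 1 := by rw [Nat.cast_sub hmM]
    _ ≤ 6 * (N : ℝ) ^ 2 / d + 1 := by
        have := div_le_div_of_nonneg_right h3 hd0.le
        linarith

end Pool.Agent.XE
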